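import Pool.Agent.Helper41.Eggert.Final

set_option autoImplicit false

namespace Pool.Agent.Results.MP_3577db_al.Full

universe u v

/-- `pw a k = a ^ (k + 1)`, in an algebra that need not have an identity. -/
def pw {R : Type v} [Mul R] (a : R) : ℕ → R
  | 0 => a
  | k + 1 => a * pw a k

/-- The span `R^(1)` of the `p`-th powers of the elements of `R`. -/
def pthPowers (F : Type u) (R : Type v) [Field F] [NonUnitalCommRing R] [Module F R] (p : ℕ) :
    Submodule F R :=
  Submodule.span F {x : R | ∃ a : R, x = pw a (p - 1)}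

theorem pw_eq {R : Type v} [NonUnitalCommRing R] (a : R) (k : ℕ) :
    pw a k = Helper41.Eggert.npw k a := by
  induction k with
  | zero => simp [pw, Helper41.Eggert.npw]
  | succ k ih => rw [pw, ih, Helper41.Eggert.npw_succ]

/-- A finite-dimensional commutative algebra whose elements are nilpotent satisfies
`a ^ (d + 1) = 0`, where `d` is the dimension of its unitization. -/
theorem bounded {F : Type u} {R : Type v} [Field F] [NonUnitalCommRing R] [Module F R]
    [IsScalarTower F R R] [SMulCommClass F R R] [FiniteDimensional F R]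
    (h : ∀ a : R, ∃ n : ℕ, pw a n = 0) : ∃ n : ℕ, ∀ a : R, pw a n = 0 := by
  refine ⟨Module.finrank F (Unitization F R), fun a => ?_⟩
  obtain ⟨n, hn⟩ := h a
  have h1 : ((a : Unitization F R)) ^ (n + 1) = 0 := by
    rw [← Helper41.Eggert.inr_npw, ← pw_eq, hn, Unitization.inr_zero]
  set f : Module.End F (Unitization F R) := LinearMap.mulLeft F (a : Unitization F R) with hf
  have h2 : f ^ (n + 1) = 0 := by
    rw [hf, LinearMap.pow_mulLeft, h1, LinearMap.mulLeft_zero_eq_zero]
  have h3 := Module.End.ker_pow_le_ker_pow_finrank f (n + 1)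
  rw [h2, LinearMap.ker_zero, top_le_iff, LinearMap.ker_eq_top] at h3
  have h4 : ((a : Unitization F R)) ^ Module.finrank F (Unitization F R) = 0 := by
    have h5 := congrArg (fun g : Module.End F (Unitization F R) => g 1) h3
    rw [hf, LinearMap.pow_mulLeft] at h5
    simpa using h5
  have h6 : ((Helper41.Eggert.npw (Module.finrank F (Unitization F R)) a : R) :
      Unitization F R) = 0 := by
    rw [Helper41.Eggert.inr_npw, pow_succ, h4, zero_mul]
  rw [pw_eq]
  exact Unitization.inr_injective (h6.trans (Unitization.inr_zero _).symm)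

/-- Weak form of the Eggert conjecture: `dim R ≥ (101 / 50) dim R^(1)`. -/
theorem result : ∀ (p : ℕ), p.Prime → p ≠ 2 →
    ∀ (F : Type u) [Field F] [CharP F p]
      (R : Type v) [NonUnitalCommRing R] [Module F R] [IsScalarTower F R R]
      [SMulCommClass F R R] [FiniteDimensional F R],
      (∀ a : R, ∃ n : ℕ, pw a n = 0) →
      (101 / 50 : ℝ) * (Module.finrank F (pthPowers F R p) : ℝ) ≤ (Module.finrank F R : ℝ) := by
  intro p hp hp2 F _ _ R _ _ _ _ _ hnil
  have : Fact p.Prime := ⟨hp⟩
  obtain ⟨n, hn⟩ := bounded (F := F) hnil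
  have h := Helper41.Eggert.weak_eggert (F := F) (R := R) p hp2
    ⟨n, fun a => by rw [← pw_eq]; exact hn a⟩
  have h1 : pthPowers F R p =
      Submodule.span F (Set.range (Helper41.Eggert.npw (R := R) (p - 1))) := by
    rw [pthPowers]
    congr 1
    ext x
    constructor
    · rintro ⟨a, rfl⟩
      exact ⟨a, (pw_eq a _).symm⟩
    · rintro ⟨a, rfl⟩
      exact ⟨a, (pw_eq a _).symm⟩
  rw [h1]
  have h2 : (101 : ℝ) * (Module.finrank F (Submodule.span F
      (Set.range (Helper41.Eggert.npw (R := R) (p - 1)))) : ℝ) ≤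
      50 * (Module.finrank F R : ℝ) := by
    exact_mod_cast h
  linarith

end Pool.Agent.Results.MP_3577db_al.Full
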